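import Pool.Agent.Lib.H85TF.P2

/-!
# H15TR, file T: the exchange lemma for sets covered by disjoint cycles of length at least four

`CovT E A`: some triangle-free subset `F` of the edge set `E`, in which every vertex has degree
`0` or `2`, has degree `2` at all the vertices of `A`.
-/

set_option autoImplicit false

namespace H15TR

open Finset H85TF H98M

variable {V : Type*} [DecidableEq V]

/-- The edge set `F` contains no triangle. -/
def TF (F : Finset (Sym2 V)) : Prop :=
  ∀ x y z, s(x, y) ∈ F → s(y, z) ∈ F → s(z, x) ∉ F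

/-- `A` is covered by pairwise disjoint cycles of `E` of length at least four. -/
def CovT (E : Finset (Sym2 V)) (A : Finset V) : Prop :=
  ∃ F ⊆ E, (∀ v, dg F v = 0 ∨ dg F v = 2) ∧ TF F ∧ ∀ v ∈ A, dg F v = 2

theorem TF.mono {F F' : Finset (Sym2 V)} (h : F' ⊆ F) (hF : TF F) : TF F' :=
  fun x y z h1 h2 h3 => hF x y z (h h1) (h h2) (h h3)

theorem TF.insert {F : Finset (Sym2 V)} {a u : V} (hl : ∀ x, s(x, x) ∉ F) (hF : TF F)
    (hau : a ≠ u) (h : ∀ w, s(a, w) ∈ F → s(w, u) ∉ F) : TF (insert s(a, u) F) := by
  have hl' : ∀ x, s(x, x) ∉ Insert.insert s(a, u) F := by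
    intro x hx
    rcases mem_insert.1 hx with hx | hx
    · rw [Sym2.eq_iff] at hx
      rcases hx with hx | hx
      · exact hau (hx.1.symm.trans hx.2)
      · exact hau (hx.2.symm.trans hx.1)
    · exact hl x hx
  -- one new edge
  have one : ∀ x y z, s(x, y) = s(a, u) → s(y, z) ∈ F → s(z, x) ∈ F → False := by
    intro x y z h1 h2 h3
    rw [Sym2.eq_iff] at h1
    rcases h1 with ⟨rfl, rfl⟩ | ⟨rfl, rfl⟩
    · exact h z (by rw [Sym2.eq_swap]; exact h3) (by rw [Sym2.eq_swap]; exact h2)
    · exact h z h2 h3
  -- two new edges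
  have two : ∀ x y z, s(x, y) = s(a, u) → s(y, z) = s(a, u) →
      s(z, x) ∈ Insert.insert s(a, u) F → False := by
    intro x y z h1 h2 h3
    have h4 : s(x, y) = s(y, z) := h1.trans h2.symm
    rw [Sym2.eq_iff] at h4
    rcases h4 with ⟨h5, h6⟩ | ⟨h5, -⟩
    · subst h5
      subst h6
      exact hl' _ h3
    · subst h5
      exact hl' _ h3
  intro x y z h1 h2 h3
  rcases mem_insert.1 h1 with h1' | h1'
  · rcases mem_insert.1 h2 with h2' | h2'
    · exact two x y z h1' h2' h3
    · rcases mem_insert.1 h3 with h3' | h3'
      · exact two z x y h3' h1' h2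
      · exact one x y z h1' h2' h3'
  · rcases mem_insert.1 h2 with h2' | h2'
    · rcases mem_insert.1 h3 with h3' | h3'
      · exact two y z x h2' h3' h1
      · exact one y z x h2' h3' h1'
    · rcases mem_insert.1 h3 with h3' | h3'
      · exact one z x y h3' h1' h2'
      · exact hF x y z h1' h2' h3'

theorem eq_of_dg_one {F : Finset (Sym2 V)} {a u w : V} (h : dg F a = 1) (hu : s(a, u) ∈ F)
    (hw : s(a, w) ∈ F) : u = w := by
  have h1 : s(a, u) = s(a, w) := by
    refine card_le_one.1 (le_of_eq h) _ (mem_filter.2 ⟨hu, by simp⟩) _ (mem_filter.2 ⟨hw, by simp⟩)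
  rw [Sym2.eq_iff] at h1
  rcases h1 with h1 | h1
  · exact h1.2
  · exact h1.2.trans h1.1

/-- Adding a path whose inner vertices have degree `0`, without triangles. -/
theorem addPathT {E : Finset (Sym2 V)} (hE : ∀ e ∈ E, ¬ e.IsDiag) {d : V} :
    ∀ {x : V} (p : (SimpleGraph.fromEdgeSet (E : Set (Sym2 V))).Walk x d), p.IsPath →
      ∀ F : Finset (Sym2 V), F ⊆ E → x ≠ d → s(x, d) ∉ F → dg F x = 1 → dg F d = 1 →
      (∀ v, v ≠ x → v ≠ d → dg F v = 0 ∨ dg F v = 2) →
      (∀ r ∈ p.support, r ≠ x → r ≠ d → dg F r = 0) → TF F →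
      (p.length = 1 → ∀ w, s(x, w) ∈ F → s(w, d) ∉ F) →
      ∃ F' ⊆ E, (∀ v, dg F' v = 0 ∨ dg F' v = 2) ∧ dg F' x = 2 ∧ dg F' d = 2 ∧
        (∀ v, dg F v = 2 → dg F' v = 2) ∧ TF F' := by
  have hl : ∀ F : Finset (Sym2 V), F ⊆ E → ∀ x, s(x, x) ∉ F :=
    fun F hF x hx => hE _ (hF hx) (by simp)
  intro x p
  induction p with
  | nil => intro _ F _ h; exact absurd rfl h
  | @cons x y d h q ih =>
    intro hp F hF hxd hne hx hd hdeg hin hT hI
    rw [SimpleGraph.fromEdgeSet_adj] at h
    obtain ⟨hxy, hxy'⟩ := h
    rw [SimpleGraph.Walk.cons_isPath_iff] at hp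
    by_cases hyd : y = d
    · subst hyd
      have key := dg_insert hne
      have hq : q = SimpleGraph.Walk.nil := by
        rw [← SimpleGraph.Walk.isPath_iff_eq_nil]
        exact hp.1
      have hlen : (SimpleGraph.Walk.cons (SimpleGraph.fromEdgeSet_adj _ |>.2 ⟨hxy, hxy'⟩ :
          (SimpleGraph.fromEdgeSet (E : Set (Sym2 V))).Adj x y) q).length = 1 := by
        rw [hq]; simp
      refine ⟨insert s(x, y) F, insert_subset (by exact_mod_cast hxy) hF, ?_, ?_, ?_, ?_,
        TF.insert (hl F hF) hT hxy' (hI hlen)⟩
      · intro v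
        rw [key v]
        by_cases h1 : v = x
        · subst h1; simp [hx]
        · by_cases h2 : v = y
          · subst h2; simp [hd]
          · simpa [h1, h2] using hdeg v h1 h2
      · rw [key x]; simp [hx]
      · rw [key y]; simp [hd]
      · intro v hv
        rw [key v]
        have h1 : v ≠ x := fun e => by subst e; omega
        have h2 : v ≠ y := fun e => by subst e; omega
        simpa [h1, h2] using hv
    · have hy0 : dg F y = 0 := hin y (by simp) (Ne.symm hxy') hyd
      have hyF : ∀ w, s(y, w) ∉ F := fun w h' => by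
        have := dg_pos h'
        omega
      have hyF' : ∀ w, s(w, y) ∉ F := fun w h' => by
        have := dg_pos' h'
        omega
      have hnF : s(x, y) ∉ F := hyF' x
      have key := dg_insert hnF
      obtain ⟨F', hF', h1, h2, h3, h4, h5⟩ := ih hp.1 (insert s(x, y) F)
        (insert_subset (by exact_mod_cast hxy) hF) hyd
        (by
          intro h'
          rcases mem_insert.1 h' with h' | h'
          · rw [Sym2.eq_iff] at h'
            rcases h' with h' | h'
            · exact hxy' h'.1.symm
            · exact hxd h'.2.symm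
          · exact hyF d h')
        (by rw [key y]; simp [hy0])
        (by
          rw [key d]
          have h1 : d ≠ x := Ne.symm hxd
          have h2 : d ≠ y := Ne.symm hyd
          simpa [h1, h2] using hd)
        (by
          intro v hv1 hv2
          rw [key v]
          by_cases h1 : v = x
          · subst h1; simp [hx]
          · simpa [h1, hv1] using hdeg v h1 hv2)
        (by
          intro r hr hr1 hr2
          have h1 : r ≠ x := fun e => hp.2 (e ▸ hr)
          rw [key r]
          have := hin r (by simp [hr]) h1 hr2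
          simpa [h1, hr1] using this)
        (TF.insert (hl F hF) hT hxy' fun w _ => hyF' w)
        (by
          intro _ w hw hwd
          have hwx : w = x := by
            rcases mem_insert.1 hw with hw | hw
            · rw [Sym2.eq_iff] at hw
              rcases hw with hw | hw
              · exact absurd hw.1.symm hxy'
              · exact hw.2
            · exact absurd hw (hyF w)
          subst hwx
          rcases mem_insert.1 hwd with hwd | hwd
          · rw [Sym2.eq_iff] at hwd
            rcases hwd with hwd | hwd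
            · exact hyd hwd.2.symm
            · exact hxy' hwd.1
          · exact hne hwd)
      refine ⟨F', hF', h1, h4 x (by rw [key x]; simp [hx]), h3, fun v hv => h4 v ?_, h5⟩
      rw [key v]
      have h5 : v ≠ x := fun e => by subst e; omega
      have h6 : v ≠ y := fun e => by subst e; omega
      simpa [h5, h6] using hv

end H15TR
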