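import Pool.Agent.Lib.H15TR.T

/-!
# H15TR, file W5: the walk between two families of disjoint cycles of length at least five
-/

set_option autoImplicit false

namespace H15TR

open Finset H85TF H98M

variable {V : Type*} [DecidableEq V]

/-- No cycle of length three or four. -/
def SF (F : Finset (Sym2 V)) : Prop :=
  (∀ x y z, s(x, y) ∈ F → s(y, z) ∈ F → s(z, x) ∉ F) ∧
    ∀ x y z w, x ≠ z → y ≠ w → s(x, y) ∈ F → s(y, z) ∈ F → s(z, w) ∈ F → s(w, x) ∉ F

theorem SF.mono {F F' : Finset (Sym2 V)} (h : F' ⊆ F) (hF : SF F) : SF F' :=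
  ⟨fun x y z h1 h2 h3 => hF.1 x y z (h h1) (h h2) (h h3),
    fun x y z w h1 h2 h3 h4 h5 h6 => hF.2 x y z w h1 h2 (h h3) (h h4) (h h5) (h h6)⟩

/-- No path of length two or three from `a` to `u`. -/
def Far (F : Finset (Sym2 V)) (a u : V) : Prop :=
  (∀ w, s(a, w) ∈ F → s(w, u) ∉ F) ∧
    ∀ w y, y ≠ a → w ≠ u → s(a, w) ∈ F → s(w, y) ∈ F → s(y, u) ∉ F

theorem SF.insert {F : Finset (Sym2 V)} {a u : V} (hl : ∀ x, s(x, x) ∉ F) (hF : SF F)
    (hau : a ≠ u) (h : Far F a u) : SF (insert s(a, u) F) := by
  have hl' : ∀ x, s(x, x) ∉ Insert.insert s(a, u) F := by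
    intro x hx
    rcases mem_insert.1 hx with hx | hx
    · rw [Sym2.eq_iff] at hx
      rcases hx with hx | hx
      · exact hau (hx.1.symm.trans hx.2)
      · exact hau (hx.2.symm.trans hx.1)
    · exact hl x hx
  have one : ∀ x y z w, x ≠ z → y ≠ w → s(x, y) = s(a, u) → s(y, z) ∈ F → s(z, w) ∈ F →
      s(w, x) ∈ F → False := by
    intro x y z w hxz hyw h1 h2 h3 h4
    rw [Sym2.eq_iff] at h1
    rcases h1 with ⟨rfl, rfl⟩ | ⟨rfl, rfl⟩
    · exact h.2 w z (Ne.symm hxz) (Ne.symm hyw) (by rw [Sym2.eq_swap]; exact h4)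
        (by rw [Sym2.eq_swap]; exact h3) (by rw [Sym2.eq_swap]; exact h2)
    · exact h.2 z w (Ne.symm hyw) (Ne.symm hxz) h2 h3 h4
  have two : ∀ x y z, x ≠ z → s(x, y) = s(a, u) → s(y, z) = s(a, u) → False := by
    intro x y z hxz h1 h2
    have h3 := h1.trans h2.symm
    rw [Sym2.eq_iff] at h3
    rcases h3 with h3 | h3
    · exact hxz (h3.1.trans h3.2)
    · exact hxz h3.1
  have opp : ∀ x y z w, x ≠ z → s(x, y) = s(a, u) → s(z, w) = s(a, u) →
      s(y, z) ∈ Insert.insert s(a, u) F → False := by
    intro x y z w hxz h1 h2 h4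
    have h3 := h1.trans h2.symm
    rw [Sym2.eq_iff] at h3
    rcases h3 with h3 | h3
    · exact hxz h3.1
    · rw [h3.2] at h4
      exact hl' _ h4
  refine ⟨TF.insert hl hF.1 hau h.1, ?_⟩
  intro x y z w hxz hyw h1 h2 h3 h4
  rcases mem_insert.1 h1 with h1' | h1'
  · rcases mem_insert.1 h2 with h2' | h2'
    · exact two x y z hxz h1' h2'
    · rcases mem_insert.1 h3 with h3' | h3'
      · exact opp x y z w hxz h1' h3' h2
      · rcases mem_insert.1 h4 with h4' | h4'
        · exact two w x y (Ne.symm hyw) h4' h1'
        · exact one x y z w hxz hyw h1' h2' h3' h4'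
  · rcases mem_insert.1 h2 with h2' | h2'
    · rcases mem_insert.1 h3 with h3' | h3'
      · exact two y z w hyw h2' h3'
      · rcases mem_insert.1 h4 with h4' | h4'
        · exact opp y z w x hyw h2' h4' h3
        · exact one y z w x hyw (Ne.symm hxz) h2' h3' h4' h1'
    · rcases mem_insert.1 h3 with h3' | h3'
      · rcases mem_insert.1 h4 with h4' | h4'
        · exact two z w x (Ne.symm hxz) h3' h4'
        · exact one z w x y (Ne.symm hxz) (Ne.symm hyw) h3' h4' h1' h2'
      · rcases mem_insert.1 h4 with h4' | h4'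
        · exact one w x y z (Ne.symm hyw) hxz h4' h1' h2' h3'
        · exact hF.2 x y z w hxz hyw h1' h2' h3' h4'

theorem eq_of_dg_le_one {F : Finset (Sym2 V)} {a u w : V} (h : dg F a ≤ 1) (hu : s(a, u) ∈ F)
    (hw : s(a, w) ∈ F) : u = w := by
  have h1 : s(a, u) = s(a, w) :=
    card_le_one.1 h _ (mem_filter.2 ⟨hu, by simp⟩) _ (mem_filter.2 ⟨hw, by simp⟩)
  rw [Sym2.eq_iff] at h1
  rcases h1 with h1 | h1
  · exact h1.2
  · exact h1.2.trans h1.1

theorem nb2 {F : Finset (Sym2 V)} {v p q r : V} (h : dg F v ≤ 2) (hp : s(v, p) ∈ F)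
    (hq : s(v, q) ∈ F) (hr : s(v, r) ∈ F) (hpq : p ≠ q) (hpr : p ≠ r) : q = r := by
  have h1 := dg_erase hp v
  rw [if_pos (Or.inl rfl)] at h1
  have hne : ∀ t, p ≠ t → s(v, t) ≠ s(v, p) := by
    intro t ht h2
    rw [Sym2.eq_iff] at h2
    rcases h2 with h2 | h2
    · exact ht h2.2.symm
    · exact ht (h2.1.symm.trans h2.2.symm)
  exact eq_of_dg_le_one (F := F.erase s(v, p)) (a := v) (by omega)
    (mem_erase.2 ⟨hne q hpq, hq⟩) (mem_erase.2 ⟨hne r hpr, hr⟩)

theorem other {F : Finset (Sym2 V)} {v p : V} (h : dg F v = 2) (hp : s(v, p) ∈ F) :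
    ∃ q, q ≠ p ∧ s(v, q) ∈ F := by
  have h1 := dg_erase hp v
  rw [if_pos (Or.inl rfl)] at h1
  obtain ⟨q, hq, -⟩ := exists_edge (F := F.erase s(v, p)) (F' := ∅) (a := v)
    (by simp only [dg, filter_empty, card_empty] at *; omega)
  rw [mem_erase] at hq
  exact ⟨q, fun e => hq.1 (by rw [e]), hq.2⟩

theorem two_le {F : Finset (Sym2 V)} {v p q : V} (hp : s(v, p) ∈ F) (hq : s(v, q) ∈ F)
    (hpq : p ≠ q) : 2 ≤ dg F v := by
  have h1 := dg_erase hp v
  rw [if_pos (Or.inl rfl)] at h1
  have h2 : s(v, q) ∈ F.erase s(v, p) := by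
    refine mem_erase.2 ⟨fun h3 => ?_, hq⟩
    rw [Sym2.eq_iff] at h3
    rcases h3 with h3 | h3
    · exact hpq h3.2.symm
    · exact hpq (h3.1.symm.trans h3.2.symm)
  have := dg_pos h2
  omega

theorem sd_insert {F N : Finset (Sym2 V)} {e : Sym2 V} (he : e ∈ N) (he' : e ∉ F) :
    (symmDiff (insert e F) N).card < (symmDiff F N).card := by
  refine card_lt_card ((ssubset_iff_of_subset ?_).2 ⟨e, ?_, ?_⟩)
  · intro f hf
    rw [mem_symmDiff] at hf ⊢
    rcases hf with hf | hf
    · rcases mem_insert.1 hf.1 with h4 | h4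
      · exact absurd (h4 ▸ he) hf.2
      · exact Or.inl ⟨h4, hf.2⟩
    · exact Or.inr ⟨hf.1, fun h4 => hf.2 (mem_insert_of_mem h4)⟩
  · rw [mem_symmDiff]
    exact Or.inr ⟨he, he'⟩
  · rw [mem_symmDiff]
    rintro (h | h)
    · exact h.2 he
    · exact h.2 (mem_insert_self _ _)

theorem sd_erase {F N : Finset (Sym2 V)} {e : Sym2 V} (he : e ∉ N) (he' : e ∈ F) :
    (symmDiff (F.erase e) N).card < (symmDiff F N).card := by
  refine card_lt_card ((ssubset_iff_of_subset ?_).2 ⟨e, ?_, ?_⟩)
  · intro f hf
    rw [mem_symmDiff] at hf ⊢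
    rcases hf with hf | hf
    · exact Or.inl ⟨mem_of_mem_erase hf.1, hf.2⟩
    · refine Or.inr ⟨hf.1, fun h4 => hf.2 (mem_erase.2 ⟨?_, h4⟩)⟩
      rintro rfl
      exact he hf.1
  · rw [mem_symmDiff]
    exact Or.inl ⟨he', he⟩
  · rw [mem_symmDiff]
    rintro (h | h)
    · exact notMem_erase _ _ h.1
    · exact he h.1

theorem sd_erase_le {F N : Finset (Sym2 V)} {e : Sym2 V} :
    (symmDiff (F.erase e) N).card ≤ (symmDiff F N).card + 1 := by
  have h : symmDiff (F.erase e) N ⊆ insert e (symmDiff F N) := by
    intro f hf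
    rw [mem_insert, mem_symmDiff]
    rw [mem_symmDiff] at hf
    by_cases hfe : f = e
    · exact Or.inl hfe
    · right
      rcases hf with hf | hf
      · exact Or.inl ⟨mem_of_mem_erase hf.1, hf.2⟩
      · exact Or.inr ⟨hf.1, fun h4 => hf.2 (mem_erase.2 ⟨hfe, h4⟩)⟩
  exact (card_le_card h).trans (card_insert_le _ _)

/-- The edge of the walk at `d` cannot be rotated away from `c`. -/
def NR (F₁ F₂ : Finset (Sym2 V)) (d c : V) : Prop :=
  ∀ c' w, c' ≠ c → s(d, c') ∈ F₂ → s(c', w) ∈ F₂ → s(w, c) ∈ F₁ → s(w, c) ∈ F₂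

/-- The result of the walk. -/
def Res (F₁ F₂ : Finset (Sym2 V)) (A : Finset V) (b d c : V) : Prop :=
  ∃ F' ⊆ F₁ ∪ F₂, SF F' ∧ (∀ v ∈ A, dg F' v = 2) ∧
    (((∀ v, dg F' v = 0 ∨ dg F' v = 2) ∧ dg F' b = 2 ∧ dg F' d = 2) ∨
      (dg F' b = 1 ∧ dg F' d = 1 ∧ (∀ v, v ≠ b → v ≠ d → dg F' v = 0 ∨ dg F' v = 2) ∧
        (NR F₁ F₂ d c → s(d, c) ∈ F')))

/-- A state of the walk. -/
structure St (F₁ F₂ : Finset (Sym2 V)) (A : Finset V) (b d c : V) (F : Finset (Sym2 V))
    (a : V) : Prop where
  sub : F ⊆ F₁ ∪ F₂
  sf : SF F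
  hA : ∀ v ∈ A, v ≠ a → dg F v = 2
  deg : ∀ v, v ≠ a → v ≠ d → dg F v = 0 ∨ dg F v = 2
  ha : dg F a = 1
  had : a ≠ d
  hd : dg F d = 1
  hb : b ≠ a → dg F b = 2
  nr : NR F₁ F₂ d c → s(d, c) ∈ F

/-- The data of the walk. -/
structure Dat (F₁ F₂ : Finset (Sym2 V)) (A : Finset V) (b d c : V) : Prop where
  l1 : ∀ x, s(x, x) ∉ F₁
  l2 : ∀ x, s(x, x) ∉ F₂
  s1 : SF F₁
  s2 : SF F₂
  deg1 : ∀ v, dg F₁ v = 0 ∨ dg F₁ v = 2
  deg2 : ∀ v, dg F₂ v = 0 ∨ dg F₂ v = 2
  hA1 : ∀ v ∈ A, dg F₁ v = 2
  hA2 : ∀ v ∈ A, dg F₂ v = 2
  hb1 : dg F₁ b = 2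
  hb2 : dg F₂ b = 0
  hd1 : dg F₁ d = 0
  hd2 : dg F₂ d = 2
  hc : s(d, c) ∈ F₂

variable {F₁ F₂ : Finset (Sym2 V)} {A : Finset V} {b d c : V}

theorem Dat.loop (D : Dat F₁ F₂ A b d c) {F : Finset (Sym2 V)} (h : F ⊆ F₁ ∪ F₂) (x : V) :
    s(x, x) ∉ F := fun h1 => by
  rcases mem_union.1 (h h1) with h2 | h2
  · exact D.l1 x h2
  · exact D.l2 x h2

theorem Dat.atd (D : Dat F₁ F₂ A b d c) {F : Finset (Sym2 V)} (h : F ⊆ F₁ ∪ F₂) {x : V}
    (hx : s(x, d) ∈ F) : s(x, d) ∈ F₂ := by
  rcases mem_union.1 (h hx) with h2 | h2
  · have := dg_pos' h2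
    have := D.hd1
    omega
  · exact h2

/-- One good step. -/
theorem go (D : Dat F₁ F₂ A b d c) {m : ℕ}
    (ih : ∀ F a, (symmDiff F F₂).card < m → St F₁ F₂ A b d c F a → Res F₁ F₂ A b d c)
    {F : Finset (Sym2 V)} {a x : V} (hm : (symmDiff F F₂).card ≤ m)
    (S : St F₁ F₂ A b d c F a) (hab : a ≠ b) (hx : s(a, x) ∈ F₂) (hx' : s(a, x) ∉ F)
    (hf : Far F a x) : Res F₁ F₂ A b d c := by
  have hax : a ≠ x := fun e => D.l2 x (by rw [e] at hx; exact hx)
  have hxb : x ≠ b := by
    rintro rfl
    have := dg_pos' hx
    have := D.hb2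
    omega
  have key := dg_insert hx'
  have ka := key a
  rw [if_pos (Or.inl rfl)] at ka
  have kx := key x
  rw [if_pos (Or.inr rfl)] at kx
  have kb := key b
  rw [if_neg (by push Not; exact ⟨Ne.symm hab, Ne.symm hxb⟩)] at kb
  have hb := S.hb (Ne.symm hab)
  have ha := S.ha
  have hF' : insert s(a, x) F ⊆ F₁ ∪ F₂ := insert_subset (mem_union_right _ hx) S.sub
  have hsf : SF (insert s(a, x) F) := SF.insert (D.loop S.sub) S.sf hax hf
  by_cases hxd : x = d
  · subst hxd
    refine ⟨insert s(a, x) F, hF', hsf, ?_, Or.inl ⟨?_, by omega, by have := S.hd; omega⟩⟩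
    · intro v hv
      by_cases h3 : v = a
      · subst h3; omega
      · have h4 : v ≠ x := by
          rintro rfl
          have := D.hA1 v hv
          have := D.hd1
          omega
        have h5 := key v
        rw [if_neg (by push Not; exact ⟨h3, h4⟩)] at h5
        have := S.hA v hv h3
        omega
    · intro v
      by_cases h3 : v = a
      · subst h3; omega
      · by_cases h4 : v = x
        · subst h4
          have := S.hd
          omega
        · have h5 := key v
          rw [if_neg (by push Not; exact ⟨h3, h4⟩)] at h5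
          have := S.deg v h3 h4
          omega
  · have kd := key d
    rw [if_neg (by push Not; exact ⟨Ne.symm S.had, Ne.symm hxd⟩)] at kd
    have hd := S.hd
    have hsd := sd_insert hx hx'
    rcases S.deg x (Ne.symm hax) hxd with hx0 | hx0
    · refine ih (insert s(a, x) F) x (by omega) ⟨hF', hsf, ?_, ?_, by omega, hxd, by omega,
        fun _ => by omega, fun h => mem_insert_of_mem (S.nr h)⟩
      · intro v hv h4
        by_cases h3 : v = a
        · subst h3; omega
        · have h5 := key v
          rw [if_neg (by push Not; exact ⟨h3, h4⟩)] at h5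
          have := S.hA v hv h3
          omega
      · intro v h4 h6
        by_cases h3 : v = a
        · subst h3; omega
        · have h5 := key v
          rw [if_neg (by push Not; exact ⟨h3, h4⟩)] at h5
          have := S.deg v h3 h6
          omega
    · -- remove an edge at x
      have hxa2 : s(x, a) ∈ F₂ := by rw [Sym2.eq_swap]; exact hx
      have hxa' : s(x, a) ∉ F := by rw [Sym2.eq_swap]; exact hx'
      have h2x := dg_erase hxa2 x
      rw [if_pos (Or.inl rfl)] at h2x
      have h2x' := D.deg2 x
      obtain ⟨u, hu, hu'⟩ := exists_edge (F := F) (F' := F₂.erase s(x, a)) (a := x) (by omega)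
      have hu2 : s(x, u) ∉ F₂ := fun h => hu' (mem_erase.2 ⟨fun h3 => hxa' (h3 ▸ hu), h⟩)
      have hxu : x ≠ u := fun e => D.loop S.sub x (by rw [← e] at hu; exact hu)
      have hua : u ≠ a := by
        rintro rfl
        exact hxa' hu
      have hud : u ≠ d := by
        rintro rfl
        exact hu2 (D.atd S.sub hu)
      have hu3 : s(x, u) ∈ insert s(a, x) F := mem_insert_of_mem hu
      have key2 := dg_erase hu3
      have k2x := key2 x
      rw [if_pos (Or.inl rfl)] at k2x
      have k2u := key2 u
      rw [if_pos (Or.inr rfl)] at k2u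
      have k1u := key u
      rw [if_neg (by push Not; exact ⟨hua, Ne.symm hxu⟩)] at k1u
      have k2d := key2 d
      rw [if_neg (by push Not; exact ⟨Ne.symm hxd, Ne.symm hud⟩)] at k2d
      have hu4 : dg F u = 2 := by
        have := S.deg u hua hud
        have := dg_pos' hu
        omega
      have hsd2 := sd_erase hu2 hu3
      have hrest : ∀ v, v ≠ u → v ≠ a → dg ((insert s(a, x) F).erase s(x, u)) v = dg F v := by
        intro v h3 h4
        by_cases h5 : v = x
        · subst h5; omega
        · have h6 := key2 v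
          rw [if_neg (by push Not; exact ⟨h5, h3⟩)] at h6
          have h7 := key v
          rw [if_neg (by push Not; exact ⟨h4, h5⟩)] at h7
          omega
      have hrest2 : dg ((insert s(a, x) F).erase s(x, u)) a = 2 := by
        have h6 := key2 a
        rw [if_neg (by push Not; exact ⟨hax, Ne.symm hua⟩)] at h6
        omega
      refine ih ((insert s(a, x) F).erase s(x, u)) u (by omega)
        ⟨(erase_subset _ _).trans hF', hsf.mono (erase_subset _ _), ?_, ?_, by omega, hud,
          by omega, ?_, ?_⟩
      · intro v hv h3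
        by_cases h4 : v = a
        · subst h4; exact hrest2
        · rw [hrest v h3 h4]
          exact S.hA v hv h4
      · intro v h3 h5
        by_cases h4 : v = a
        · subst h4; exact Or.inr hrest2
        · rw [hrest v h3 h4]
          exact S.deg v h4 h5
      · intro h3
        rw [hrest b h3 (Ne.symm hab)]
        exact hb
      · intro h
        refine mem_erase.2 ⟨fun h3 => hu2 (h3 ▸ D.hc), mem_insert_of_mem (S.nr h)⟩

/-- Replace the edge `zx` by the edge `ax`. -/
theorem swap (D : Dat F₁ F₂ A b d c) {F : Finset (Sym2 V)} {a x z : V}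
    (S : St F₁ F₂ A b d c F a) (hab : a ≠ b) (hx : s(a, x) ∈ F₂) (hx' : s(a, x) ∉ F)
    (hz : s(z, x) ∈ F) (hza : z ≠ a) (hz2 : dg F z = 2) (hf : Far (F.erase s(z, x)) a x)
    (hnr : NR F₁ F₂ d c → s(z, x) ≠ s(d, c)) :
    St F₁ F₂ A b d c (insert s(a, x) (F.erase s(z, x))) z := by
  have hax : a ≠ x := fun e => D.l2 x (by rw [e] at hx; exact hx)
  have hzx : z ≠ x := fun e => D.loop S.sub x (by rw [e] at hz; exact hz)
  have hzd : z ≠ d := by
    rintro rfl
    have := S.hd
    omega
  have hxb : x ≠ b := by
    rintro rfl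
    have := dg_pos' hx
    have := D.hb2
    omega
  have hx'' : s(a, x) ∉ F.erase s(z, x) := fun h => hx' (mem_of_mem_erase h)
  have key := dg_insert hx''
  have key2 := dg_erase hz
  have ha := S.ha
  have hd := S.hd
  have had := S.had
  have hrest : ∀ v, v ≠ z → v ≠ a → dg (insert s(a, x) (F.erase s(z, x))) v = dg F v := by
    intro v h3 h4
    by_cases h5 : v = x
    · subst h5
      have h6 := key v
      rw [if_pos (Or.inr rfl)] at h6
      have h7 := key2 v
      rw [if_pos (Or.inr rfl)] at h7
      omega
    · have h6 := key2 v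
      rw [if_neg (by push Not; exact ⟨h3, h5⟩)] at h6
      have h7 := key v
      rw [if_neg (by push Not; exact ⟨h4, h5⟩)] at h7
      omega
  have hra : dg (insert s(a, x) (F.erase s(z, x))) a = 2 := by
    have h6 := key a
    rw [if_pos (Or.inl rfl)] at h6
    have h7 := key2 a
    rw [if_neg (by push Not; exact ⟨Ne.symm hza, hax⟩)] at h7
    omega
  have hrz : dg (insert s(a, x) (F.erase s(z, x))) z = 1 := by
    have h6 := key z
    rw [if_neg (by push Not; exact ⟨hza, hzx⟩)] at h6
    have h7 := key2 z
    rw [if_pos (Or.inl rfl)] at h7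
    omega
  refine ⟨insert_subset (mem_union_right _ hx) ((erase_subset _ _).trans S.sub),
    SF.insert (D.loop ((erase_subset _ _).trans S.sub)) (S.sf.mono (erase_subset _ _)) hax hf,
    ?_, ?_, hrz, hzd, ?_, ?_, ?_⟩
  · intro v hv h3
    by_cases h4 : v = a
    · subst h4; exact hra
    · rw [hrest v h3 h4]
      exact S.hA v hv h4
  · intro v h3 h5
    by_cases h4 : v = a
    · subst h4; exact Or.inr hra
    · rw [hrest v h3 h4]
      exact S.deg v h4 h5
  · rw [hrest d (Ne.symm hzd) (Ne.symm had)]
    exact hd
  · intro h3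
    rw [hrest b h3 (Ne.symm hab)]
    exact S.hb (Ne.symm hab)
  · intro h
    exact mem_insert_of_mem (mem_erase.2 ⟨Ne.symm (hnr h), S.nr h⟩)

/-- The walk. -/
theorem walk_aux (D : Dat F₁ F₂ A b d c) : ∀ (k : ℕ) (F : Finset (Sym2 V)) (a : V),
    (symmDiff F F₂).card < k → St F₁ F₂ A b d c F a → Res F₁ F₂ A b d c := by
  intro k
  induction k with
  | zero => intro F a h; omega
  | succ m ih =>
    intro F a hk S
    have hm : (symmDiff F F₂).card ≤ m := by omega
    have ha := S.ha
    by_cases hab : a = b
    · subst hab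
      refine ⟨F, S.sub, S.sf, ?_, Or.inr ⟨ha, S.hd, fun v h1 h2 => S.deg v h1 h2, S.nr⟩⟩
      intro v hv
      by_cases h3 : v = a
      · subst h3
        have := D.hA2 v hv
        have := D.hb2
        omega
      · exact S.hA v hv h3
    -- the edge at `a`
    obtain ⟨w, hw, -⟩ := exists_edge (F := F) (F' := ∅) (a := a)
      (by simp only [dg, filter_empty, card_empty] at *; omega)
    have haw : a ≠ w := fun e => D.loop S.sub a (by rw [← e] at hw; exact hw)
    have hw' : s(w, a) ∈ F := by rw [Sym2.eq_swap]; exact hw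
    have huniq : ∀ t, s(a, t) ∈ F → t = w := fun t ht => eq_of_dg_one ha ht hw
    have hFd : ∀ v, v ≠ a → dg F v ≤ 2 := by
      intro v hv
      by_cases h3 : v = d
      · subst h3
        have := S.hd
        omega
      · have := S.deg v hv h3
        omega
    rcases D.deg2 a with h0 | h0
    · -- remove the edge at `a`
      have hw2 : s(a, w) ∉ F₂ := fun h => by
        have := dg_pos h
        omega
      have hwd : w ≠ d := by
        rintro rfl
        exact hw2 (D.atd S.sub hw)
      have key := dg_erase hw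
      have ka := key a
      rw [if_pos (Or.inl rfl)] at ka
      have kw := key w
      rw [if_pos (Or.inr rfl)] at kw
      have kd := key d
      rw [if_neg (by push Not; exact ⟨Ne.symm S.had, Ne.symm hwd⟩)] at kd
      have hd := S.hd
      have hw3 : dg F w = 2 := by
        have := S.deg w (Ne.symm haw) hwd
        have := dg_pos' hw
        omega
      have hsd := sd_erase hw2 hw
      have hrest : ∀ v, v ≠ w → v ≠ a → dg (F.erase s(a, w)) v = dg F v := by
        intro v h3 h4
        have h6 := key v
        rw [if_neg (by push Not; exact ⟨h4, h3⟩)] at h6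
        omega
      refine ih (F.erase s(a, w)) w (by omega) ⟨(erase_subset _ _).trans S.sub,
        S.sf.mono (erase_subset _ _), ?_, ?_, by omega, hwd, by omega, ?_, ?_⟩
      · intro v hv h3
        by_cases h4 : v = a
        · subst h4
          have := D.hA2 v hv
          omega
        · rw [hrest v h3 h4]
          exact S.hA v hv h4
      · intro v h3 h5
        by_cases h4 : v = a
        · subst h4
          left
          omega
        · rw [hrest v h3 h4]
          exact S.deg v h4 h5
      · intro h3
        rw [hrest b h3 (Ne.symm hab)]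
        exact S.hb (Ne.symm hab)
      · intro h
        exact mem_erase.2 ⟨fun h3 => hw2 (h3 ▸ D.hc), S.nr h⟩
    · -- `a` is on a cycle of `F₂`
      by_cases hgood : ∃ x, s(a, x) ∈ F₂ ∧ s(a, x) ∉ F ∧ Far F a x
      · obtain ⟨x, h1, h2, h3⟩ := hgood
        exact go D ih hm S hab h1 h2 h3
      -- the shape of a bad candidate
      have shape : ∀ x, s(a, x) ∈ F₂ → s(a, x) ∉ F → s(w, x) ∈ F ∨
          ∃ y, y ≠ a ∧ w ≠ x ∧ s(w, y) ∈ F ∧ s(y, x) ∈ F := by
        intro x h1 h2
        by_contra hcon
        push Not at hcon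
        refine hgood ⟨x, h1, h2, ?_, ?_⟩
        · intro t ht
          rw [huniq t ht]
          exact hcon.1
        · intro t y hy ht h4 h5
          have e := huniq t h4
          subst e
          exact hcon.2 y hy ht h5
      obtain ⟨x, hx, hx'⟩ := exists_edge (F := F₂) (F' := F) (a := a) (by omega)
      have hax : a ≠ x := fun e => D.l2 x (by rw [e] at hx; exact hx)
      have hxa : s(x, a) ∈ F₂ := by rw [Sym2.eq_swap]; exact hx
      have hwx : w ≠ x := by
        rintro rfl
        exact hx' hw
      rcases shape x hx hx' with hT | ⟨y, hya, -, hwy, hyx⟩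
      · -- triangle `a w x`
        have hw2 : dg F w = 2 := by
          have h1 := two_le hw' hT hax
          have h2 := hFd w (Ne.symm haw)
          omega
        by_cases hT2 : s(w, x) ∈ F₂
        · -- the other candidate
          have haw2 : s(a, w) ∉ F₂ := fun h => D.s2.1 a w x h hT2 hxa
          obtain ⟨x', hxx', hx2⟩ := other h0 hx
          have hx2' : s(a, x') ∉ F := by
            intro h
            rw [huniq x' h] at hx2
            exact haw2 hx2
          have hax' : a ≠ x' := fun e => D.l2 x' (by rw [e] at hx2; exact hx2)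
          rcases shape x' hx2 hx2' with hT' | ⟨y, hya, hwx', hwy, hyx'⟩
          · exact absurd (nb2 (hFd w (Ne.symm haw)) hw' hT hT' hax hax') (Ne.symm hxx')
          · have hyx : y = x := nb2 (hFd w (Ne.symm haw)) hw' hwy hT (Ne.symm hya) hax
            subst hyx
            have hyx2 : s(y, x') ∉ F₂ := fun h =>
              D.s2.1 a y x' hx h (by rw [Sym2.eq_swap]; exact hx2)
            have hwy' : s(y, w) ∈ F := by rw [Sym2.eq_swap]; exact hwy
            have hy2 : dg F y = 2 := by
              have h1 := two_le hwy' hyx' hwx'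
              have h2 := hFd y (Ne.symm hax)
              omega
            have hfar : Far (F.erase s(y, x')) a x' := by
              refine ⟨?_, ?_⟩
              · intro t ht h4
                rw [huniq t (mem_of_mem_erase ht)] at h4
                have h5 := nb2 (hFd w (Ne.symm haw)) hw' hwy (mem_of_mem_erase h4)
                  (Ne.symm hya) hax'
                exact hxx' h5.symm
              · intro t t' ht' htx ht h4 h5
                rw [huniq t (mem_of_mem_erase ht)] at h4
                have h6 := nb2 (hFd w (Ne.symm haw)) hw' hwy (mem_of_mem_erase h4)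
                  (Ne.symm hya) (Ne.symm ht')
                subst h6
                exact notMem_erase _ _ h5
            have S' := swap D S hab hx2 hx2' hyx' hya hy2 hfar
              (fun _ h => hyx2 (h ▸ D.hc))
            refine ih _ y ?_ S'
            have h1 := sd_insert (F := F.erase s(y, x')) hx2
              (fun h => hx2' (mem_of_mem_erase h))
            have h2 := sd_erase hyx2 hyx'
            omega
        · -- swap `w x`
          have hfar : Far (F.erase s(w, x)) a x := by
            refine ⟨?_, ?_⟩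
            · intro t ht h4
              rw [huniq t (mem_of_mem_erase ht)] at h4
              exact notMem_erase _ _ h4
            · intro t t' ht' htx ht h4 h5
              rw [huniq t (mem_of_mem_erase ht)] at h4
              have h6 := nb2 (hFd w (Ne.symm haw)) hw' hT (mem_of_mem_erase h4)
                hax (Ne.symm ht')
              subst h6
              exact notMem_erase _ _ h4
          have S' := swap D S hab hx hx' hT (Ne.symm haw) hw2 hfar
            (fun _ h => hT2 (h ▸ D.hc))
          refine ih _ w ?_ S'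
          have h1 := sd_insert (F := F.erase s(w, x)) hx
            (fun h => hx' (mem_of_mem_erase h))
          have h2 := sd_erase hT2 hT
          omega
      · -- path `a w y x`
        have hwy' : s(y, w) ∈ F := by rw [Sym2.eq_swap]; exact hwy
        have hyx0 : y ≠ x := fun e => D.loop S.sub x (by rw [e] at hyx; exact hyx)
        have hw2 : dg F w = 2 := by
          have h1 := two_le hw' hwy (Ne.symm hya)
          have h2 := hFd w (Ne.symm haw)
          omega
        have hy2 : dg F y = 2 := by
          have h1 := two_le hwy' hyx hwx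
          have h2 := hFd y hya
          omega
        have hfar : Far (F.erase s(y, x)) a x := by
          refine ⟨?_, ?_⟩
          · intro t ht h4
            rw [huniq t (mem_of_mem_erase ht)] at h4
            exact hyx0 (nb2 (hFd w (Ne.symm haw)) hw' hwy (mem_of_mem_erase h4)
              (Ne.symm hya) hax)
          · intro t t' ht' htx ht h4 h5
            rw [huniq t (mem_of_mem_erase ht)] at h4
            have h6 := nb2 (hFd w (Ne.symm haw)) hw' hwy (mem_of_mem_erase h4)
              (Ne.symm hya) (Ne.symm ht')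
            subst h6
            exact notMem_erase _ _ h5
        by_cases hyx2 : s(y, x) ∈ F₂
        swap
        · have S' := swap D S hab hx hx' hyx hya hy2 hfar
            (fun _ h => hyx2 (h ▸ D.hc))
          refine ih _ y ?_ S'
          have h1 := sd_insert (F := F.erase s(y, x)) hx
            (fun h => hx' (mem_of_mem_erase h))
          have h2 := sd_erase hyx2 hyx
          omega
        -- rotation
        have haw2 : s(a, w) ∈ F₂ := by
          by_contra haw2
          obtain ⟨x', hxx', hx2⟩ := other h0 hx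
          have hx2' : s(a, x') ∉ F := by
            intro h
            rw [huniq x' h] at hx2
            exact haw2 hx2
          have hax' : a ≠ x' := fun e => D.l2 x' (by rw [e] at hx2; exact hx2)
          rcases shape x' hx2 hx2' with hT' | ⟨y', hya', hwx', hwy2, hyx'⟩
          · have e := nb2 (hFd w (Ne.symm haw)) hw' hwy hT' (Ne.symm hya) hax'
            subst e
            exact D.s2.1 a y x hx2 hyx2 hxa
          · have e := nb2 (hFd w (Ne.symm haw)) hw' hwy hwy2 (Ne.symm hya) (Ne.symm hya')
            subst e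
            exact hxx' (nb2 (hFd y hya) hwy' hyx hyx' hwx hwx').symm
        have hwy2 : s(w, y) ∉ F₂ := fun h =>
          D.s2.2 a w y x (Ne.symm hya) hwx haw2 h hyx2 hxa
        have hy2' : dg F₂ y = 2 := by
          have := D.deg2 y
          have := dg_pos hyx2
          omega
        obtain ⟨y', hy'x, hyy'⟩ := other hy2' hyx2
        have hy'w : y' ≠ w := by
          rintro rfl
          exact hwy2 (by rw [Sym2.eq_swap]; exact hyy')
        have hy'a : y' ≠ a := by
          rintro rfl
          have h1 : s(y', y) ∈ F₂ := by rw [Sym2.eq_swap]; exact hyy'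
          have h2 := nb2 (by omega) haw2 hx h1 hwx (by
            rintro rfl
            exact D.loop S.sub w hwy)
          exact hyx0 h2.symm
        have hyy0 : y ≠ y' := fun e => D.l2 y' (by rw [e] at hyy'; exact hyy')
        have hyb : y ≠ b := by
          rintro rfl
          have := D.hb2
          omega
        have hwy0 : w ≠ y := fun e => D.loop S.sub y (by rw [e] at hwy; exact hwy)
        have S' := swap D S hab hx hx' hyx hya hy2 hfar (by
          intro hnr h
          rw [Sym2.eq_iff] at h
          rcases h with h | h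
          · have h1 := S.hd
            rw [← h.1] at h1
            omega
          · -- `x = d`, `y = c`
            have h1 : s(d, a) ∈ F₂ := by rw [← h.2]; exact hxa
            have h2 : s(w, c) ∈ F₁ := by
              rcases mem_union.1 (S.sub hwy) with h3 | h3
              · rw [← h.1]; exact h3
              · exact absurd h3 hwy2
            exact hwy2 (by
              rw [h.1]
              exact hnr a w (by rw [← h.1]; exact Ne.symm hya) h1 haw2 h2))
        have hyF : s(y, y') ∉ F := by
          intro h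
          rcases eq_or_ne y' w with h1 | h1
          · exact hy'w h1
          · exact hy'x (nb2 (hFd y hya) hwy' hyx h hwx (Ne.symm hy'w)).symm
        -- the neighbours in the new graph
        have m1 : ∀ t, s(y, t) ∈ insert s(a, x) (F.erase s(y, x)) → t = w := by
          intro t ht
          rcases mem_insert.1 ht with h | h
          · rw [Sym2.eq_iff] at h
            rcases h with h | h
            · exact absurd h.1 hya
            · exact absurd h.1 hyx0
          · rw [mem_erase] at h
            by_contra htw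
            exact h.1 (by rw [nb2 (hFd y hya) hwy' hyx h.2 hwx (Ne.symm htw)])
        have m2 : ∀ t, s(w, t) ∈ insert s(a, x) (F.erase s(y, x)) → t = a ∨ t = y := by
          intro t ht
          rcases mem_insert.1 ht with h | h
          · rw [Sym2.eq_iff] at h
            rcases h with h | h
            · exact absurd h.1.symm haw
            · exact absurd h.1 hwx
          · rw [mem_erase] at h
            by_cases hta : t = a
            · exact Or.inl hta
            · exact Or.inr (nb2 (hFd w (Ne.symm haw)) hw' hwy h.2 (Ne.symm hya)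
                (Ne.symm hta)).symm
        have m3 : ∀ t, s(a, t) ∈ insert s(a, x) (F.erase s(y, x)) → t = w ∨ t = x := by
          intro t ht
          rcases mem_insert.1 ht with h | h
          · rw [Sym2.eq_iff] at h
            rcases h with h | h
            · exact Or.inr h.2
            · exact absurd h.1 hax
          · exact Or.inl (huniq t (mem_of_mem_erase h))
        refine go D ih (m := m) ?_ S' hyb hyy' ?_ ⟨?_, ?_⟩
        · have h1 := sd_insert (F := F.erase s(y, x)) hx
            (fun h => hx' (mem_of_mem_erase h))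
          have h2 := sd_erase_le (F := F) (N := F₂) (e := s(y, x))
          omega
        · intro h
          exact hy'w (m1 y' h)
        · intro t ht h4
          rw [m1 t ht] at h4
          rcases m2 y' h4 with h5 | h5
          · exact hy'a h5
          · exact hyy0 h5.symm
        · intro t t' ht' htx ht h4 h5
          rw [m1 t ht] at h4
          rcases m2 t' h4 with h6 | h6
          · subst h6
            rcases m3 y' h5 with h7 | h7
            · exact hy'w h7
            · exact hy'x h7
          · exact ht' h6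

/-- THE WALK. -/
theorem walk5 (D : Dat F₁ F₂ A b d c) : Res F₁ F₂ A b d c := by
  have hc := D.hc
  have hdc : d ≠ c := fun e => D.l2 c (by rw [e] at hc; exact hc)
  have hcb : c ≠ b := by
    rintro rfl
    have := dg_pos' hc
    have := D.hb2
    omega
  have hdb : d ≠ b := by
    rintro rfl
    have := D.hb1
    have := D.hd1
    omega
  have hdF : ∀ t, s(d, t) ∉ F₁ := fun t h => by
    have := dg_pos h
    have := D.hd1
    omega
  have hn : s(d, c) ∉ F₁ := hdF c
  have key := dg_insert hn
  have hd1 := D.hd1
  have hb1 := D.hb1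
  have kd := key d
  rw [if_pos (Or.inl rfl)] at kd
  have kc := key c
  rw [if_pos (Or.inr rfl)] at kc
  have hsub : insert s(d, c) F₁ ⊆ F₁ ∪ F₂ :=
    insert_subset (mem_union_right _ hc) subset_union_left
  have hsf : SF (insert s(d, c) F₁) := SF.insert D.l1 D.s1 hdc
    ⟨fun t ht => absurd ht (hdF t), fun t _ _ _ ht => absurd ht (hdF t)⟩
  have hrest : ∀ v, v ≠ d → v ≠ c → dg (insert s(d, c) F₁) v = dg F₁ v := by
    intro v h3 h4
    have h6 := key v
    rw [if_neg (by push Not; exact ⟨h3, h4⟩)] at h6
    omega
  have hAd : ∀ v ∈ A, v ≠ d := by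
    rintro v hv rfl
    have := D.hA1 v hv
    omega
  rcases D.deg1 c with h0 | h0
  · refine walk_aux D _ (insert s(d, c) F₁) c (Nat.lt_succ_self _) ⟨hsub, hsf, ?_, ?_,
      by omega, Ne.symm hdc, by omega, ?_, fun _ => mem_insert_self _ _⟩
    · intro v hv h3
      rw [hrest v (hAd v hv) h3]
      exact D.hA1 v hv
    · intro v h3 h5
      rw [hrest v h5 h3]
      exact D.deg1 v
    · intro h3
      rw [hrest b (Ne.symm hdb) h3]
      exact hb1
  · have hcd2 : s(c, d) ∈ F₂ := by rw [Sym2.eq_swap]; exact hc
    have h2x := dg_erase hcd2 c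
    rw [if_pos (Or.inl rfl)] at h2x
    have h2x' := D.deg2 c
    obtain ⟨u, hu, hu'⟩ := exists_edge (F := F₁) (F' := F₂.erase s(c, d)) (a := c) (by omega)
    have hud : u ≠ d := by
      rintro rfl
      have := dg_pos' hu
      omega
    have hu2 : s(c, u) ∉ F₂ := by
      intro h
      refine hu' (mem_erase.2 ⟨fun h3 => ?_, h⟩)
      rw [Sym2.eq_iff] at h3
      rcases h3 with h3 | h3
      · exact hud h3.2
      · exact hdc h3.1.symm
    have hcu : c ≠ u := fun e => D.l1 c (by rw [← e] at hu; exact hu)
    have hu3 : s(c, u) ∈ insert s(d, c) F₁ := mem_insert_of_mem hu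
    have key2 := dg_erase hu3
    have k2u := key2 u
    rw [if_pos (Or.inr rfl)] at k2u
    have k1u := hrest u hud (Ne.symm hcu)
    have hu4 : dg F₁ u = 2 := by
      have := D.deg1 u
      have := dg_pos' hu
      omega
    have hrest2 : ∀ v, v ≠ d → v ≠ u → dg ((insert s(d, c) F₁).erase s(c, u)) v = dg F₁ v := by
      intro v h3 h4
      by_cases h5 : v = c
      · subst h5
        have h6 := key2 v
        rw [if_pos (Or.inl rfl)] at h6
        omega
      · have h6 := key2 v
        rw [if_neg (by push Not; exact ⟨h5, h4⟩)] at h6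
        have h7 := hrest v h3 h5
        omega
    have hd3 : dg ((insert s(d, c) F₁).erase s(c, u)) d = 1 := by
      have h6 := key2 d
      rw [if_neg (by push Not; exact ⟨hdc, Ne.symm hud⟩)] at h6
      omega
    refine walk_aux D _ ((insert s(d, c) F₁).erase s(c, u)) u (Nat.lt_succ_self _)
      ⟨(erase_subset _ _).trans hsub, hsf.mono (erase_subset _ _), ?_, ?_, by omega, hud, hd3,
        ?_, ?_⟩
    · intro v hv h3
      rw [hrest2 v (hAd v hv) h3]
      exact D.hA1 v hv
    · intro v h3 h5
      rw [hrest2 v h5 h3]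
      exact D.deg1 v
    · intro h3
      rw [hrest2 b (Ne.symm hdb) h3]
      exact hb1
    · intro _
      exact mem_erase.2 ⟨fun h3 => hu2 (h3 ▸ hc), mem_insert_self _ _⟩

end H15TR
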